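import Pool.Agent.helper52.IR.Spec

/-! # Row ir:HMG (MP_07c750_an): the main estimate for general functions -/

open scoped MatrixGroups ContDiff Topology UpperHalfPlane ComplexConjugate
open UpperHalfPlane MeasureTheory Filter Set

set_option autoImplicit false

namespace Pool.Agent.IR

open Pool.Agent.RS
open Pool.Agent.MS (bq BB BA SF pf)
open Pool.Agent.HV (FW)
open Pool.Agent.EN (XG MG mkX mkM fl pr)
open Pool.Agent.ER (Low LowJ)

noncomputable section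

/-- the set of the points near which the past is bad -/
def HMG_D (Ψ' : SL(2, ℝ) → ℝ) (εc l0 n : ℝ) : Set SL(2, ℝ) := {g | ∃ (x τ o : ℝ) (e : SL(2, ℝ)), (e = 1 ∨ e = -1) ∧ |x| ≤ 4 * εc ∧ |τ| ≤ 3 / 5 ∧ |o| ≤ l0 ∧
  Ψ' (e * g * nM x * aM τ * lM o * aM (-n)) ≠ 0}

theorem HMG_comm (e g : SL(2, ℝ)) (he : e = 1 ∨ e = -1) : e * g = g * e := by
  rcases he with rfl | rfl
  · rw [one_mul, mul_one]
  · rw [neg_mul, mul_neg, one_mul, mul_one]

theorem HMG_open (Ψ' : SL(2, ℝ) → ℝ) (hc : Continuous Ψ') (εc l0 n : ℝ) : IsOpen (HMG_D Ψ' εc l0 n) := by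
  have h : HMG_D Ψ' εc l0 n = ⋃ (x : ℝ) (τ : ℝ) (o : ℝ) (e : SL(2, ℝ)) (_ : (e = 1 ∨ e = -1) ∧ |x| ≤ 4 * εc ∧ |τ| ≤ 3 / 5 ∧ |o| ≤ l0),
      {g : SL(2, ℝ) | Ψ' (e * g * nM x * aM τ * lM o * aM (-n)) ≠ 0} := by
    ext g
    simp only [mem_iUnion, mem_setOf_eq, HMG_D, exists_prop, and_assoc]
  rw [h]
  refine isOpen_iUnion fun x => isOpen_iUnion fun τ => isOpen_iUnion fun o => isOpen_iUnion fun e => isOpen_iUnion fun _ => ?_
  have hcont : Continuous fun g : SL(2, ℝ) => Ψ' (e * g * nM x * aM τ * lM o * aM (-n)) := by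
    refine hc.comp ?_
    exact ((((continuous_const.mul continuous_id).mul continuous_const).mul continuous_const).mul continuous_const).mul continuous_const
  exact isOpen_ne.preimage hcont

theorem HMG_inv (Γ : Subgroup SL(2, ℝ)) (Ψ' : SL(2, ℝ) → ℝ) (hi : ∀ (γ : Γ) (g : SL(2, ℝ)), Ψ' ((γ : SL(2, ℝ)) * g) = Ψ' g) (εc l0 n : ℝ)
    (γ : Γ) (g : SL(2, ℝ)) : (γ : SL(2, ℝ)) * g ∈ HMG_D Ψ' εc l0 n ↔ g ∈ HMG_D Ψ' εc l0 n := by
  have key : ∀ (x τ o : ℝ) (e : SL(2, ℝ)), (e = 1 ∨ e = -1) →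
      Ψ' (e * ((γ : SL(2, ℝ)) * g) * nM x * aM τ * lM o * aM (-n)) = Ψ' (e * g * nM x * aM τ * lM o * aM (-n)) := by
    intro x τ o e he
    have h : e * ((γ : SL(2, ℝ)) * g) * nM x * aM τ * lM o * aM (-n) = (γ : SL(2, ℝ)) * (e * g * nM x * aM τ * lM o * aM (-n)) := by
      rw [← mul_assoc e, HMG_comm e _ he]
      simp only [mul_assoc]
    rw [h, hi]
  constructor
  · rintro ⟨x, τ, o, e, he, h1, h2, h3, h4⟩
    rw [key x τ o e he] at h4
    exact ⟨x, τ, o, e, he, h1, h2, h3, h4⟩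
  · rintro ⟨x, τ, o, e, he, h1, h2, h3, h4⟩
    refine ⟨x, τ, o, e, he, h1, h2, h3, ?_⟩
    rw [key x τ o e he]
    exact h4

/-- **HMG** -/
theorem HMG_proof (hPVG : HV.PVG_stmt) (hLCK : LCK_stmt) (hGLC : RS.GLC_stmt) : HMG_stmt := by
  intro Γ F β α hΓ hF hβ hα
  obtain ⟨K, hK, H⟩ := hPVG Γ F β α hΓ hF hβ hα
  refine ⟨K, hK, ?_⟩
  intro ε C3 δ L0 εc B' l0 n Ψ Ψa Ψn Ψl Ψ' Ψa' Ψn' Ψl' hε hε1 hC3 hδ hδε hL0 hεc hl0 hSF hSF' hΨ hΨ' hn hl hn' hl' hLFC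
  have hnM : ∀ s t, nM (s + t) = nM s * nM t := hGLC.2.2.2.2.2.2.2.2.2.2.2.1
  have hK0 : 0 < K := by linarith
  have hen : 1 ≤ Real.exp n := Real.one_le_exp (Nat.cast_nonneg n)
  have hC1 : 1 ≤ C3 * Real.exp n := by nlinarith
  have hC3e : C3 ≤ C3 * Real.exp n := by nlinarith
  have hδ1 : δ ≤ 1 / 40000 := by
    refine hδε.trans ?_
    have : ε / 200 ≤ 1 / 200 := by linarith
    have h2 := pow_le_pow_left₀ (by positivity : 0 ≤ ε / 200) this 2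
    refine h2.trans (by norm_num)
  have hL0b : 2 / δ ≤ L0 := by
    rw [hL0]
    apply div_le_div_of_nonneg_right _ hδ.le
    have : 1 ≤ K * (C3 * Real.exp n) := by nlinarith
    linarith
  have hL0p : 0 < L0 := lt_of_lt_of_le (by positivity) hL0b
  have hεcp : 0 < εc := by
    rw [hεc]
    positivity
  have hεc1 : εc ≤ 1 / 100 := by
    rw [hεc]
    rw [div_le_div_iff₀ (by positivity) (by norm_num)]
    have h1 : 80000 ≤ L0 := by
      refine le_trans ?_ hL0b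
      rw [le_div_iff₀ hδ]
      linarith
    have := Real.pi_le_four
    nlinarith
  obtain ⟨C2, hC2d⟩ : ∃ C2 : ℝ, C2 = max B' 1 := ⟨_, rfl⟩
  have hC2 : 1 ≤ C2 := by rw [hC2d]; exact le_max_right _ _
  have hB2 : B' ≤ C2 := by rw [hC2d]; exact le_max_left _ _
  -- the time `s`
  obtain ⟨M, hM⟩ : ∃ M : ℝ, M = 2 * K * C2 / δ + 25 / εc := ⟨_, rfl⟩
  have hMa : 2 * K * C2 / δ ≤ M := by rw [hM]; linarith [div_nonneg (by norm_num : (0:ℝ) ≤ 25) hεcp.le]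
  have hMb : 25 / εc ≤ M := by rw [hM]; linarith [div_nonneg (by positivity : (0:ℝ) ≤ 2 * K * C2) hδ.le]
  have hM1 : 1 ≤ M := by
    refine le_trans ?_ hMb
    rw [le_div_iff₀ hεcp]
    linarith
  have hM0 : 0 < M := by linarith
  obtain ⟨s, hs⟩ : ∃ s : ℝ, s = Real.log M := ⟨_, rfl⟩
  have hs0 : 0 ≤ s := by rw [hs]; exact Real.log_nonneg hM1
  have hes : Real.exp (-s) = 1 / M := by rw [hs, Real.exp_neg, Real.exp_log hM0, one_div]
  have hs1 : K * C2 * Real.exp (-s) ≤ δ / 2 := by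
    rw [hes, mul_one_div, div_le_iff₀ hM0]
    rw [div_le_iff₀ hδ] at hMa
    nlinarith
  have hs2 : Real.exp (-((n : ℝ) + s)) / 4 ≤ εc / 100 := by
    have h1 : Real.exp (-((n : ℝ) + s)) ≤ Real.exp (-s) := Real.exp_le_exp.2 (by linarith [Nat.cast_nonneg (α := ℝ) n])
    have h2 : Real.exp (-s) ≤ εc / 25 := by
      rw [hes, div_le_iff₀ hM0]
      rw [div_le_iff₀ hεcp] at hMb
      nlinarith
    linarith
  -- the number of frequencies
  obtain ⟨J0, hJ0⟩ : ∃ J0 : ℕ, J0 = ⌈1 / (4 * εc)⌉₊ := ⟨_, rfl⟩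
  have hJa : 1 / (4 * εc) ≤ J0 := by rw [hJ0]; exact Nat.le_ceil _
  have hJb : (J0 : ℝ) < 1 / (4 * εc) + 1 := by rw [hJ0]; exact Nat.ceil_lt_add_one (by positivity)
  have hJc : 1 / 4 ≤ J0 * εc := by
    rw [div_le_iff₀ (by positivity)] at hJa
    linarith
  have hJd : J0 * εc ≤ 3 / 10 := by
    have h1 : (J0 : ℝ) * εc ≤ (1 / (4 * εc) + 1) * εc := mul_le_mul_of_nonneg_right hJb.le hεcp.le
    have h2 : (1 / (4 * εc) + 1) * εc = 1 / 4 + εc := by field_simp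
    linarith
  have hδ1p : 0 < min (εc / 100) (l0 / 2) := lt_min (by positivity) (by positivity)
  have hD := H δ (C3 * Real.exp n) C2 n s L0 (δ ^ 2 / 128) (min (εc / 100) (l0 / 2)) l0 J0 Ψ Ψa Ψn Ψl Ψ' Ψa' Ψn' Ψl' (HMG_D Ψ' εc l0 n) hδ
    (by linarith) hC1 hC2 (Nat.cast_nonneg n) hs0 hs1 (by rw [hL0]) (by positivity) (by linarith) hδ1p hl0 (by rw [← hεc]; exact hJc)
    hSF hΨ (fun g => (hn g).trans hC3e) hl hSF' hΨ' (fun g => (hn' g).trans hB2) (fun g => (hl' g).trans hB2)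
    (HMG_open Ψ' hSF'.i0.1 εc l0 n).measurableSet (HMG_inv Γ Ψ' hSF'.i0.2 εc l0 n) ?_ ?_
  · obtain ⟨r2, hr2, hr⟩ := hD
    refine ⟨r2, hr2, ?_⟩
    intro r m t φ h1 h2 h3 h4 h5 h6 h7 h8
    have h9 := hr r m t φ h1 h2 h3 h4 h5 h6 h7 h8
    have h10 : Real.sqrt δ ≤ ε / 200 := by
      rw [← Real.sqrt_sq (by positivity : 0 ≤ ε / 200)]
      exact Real.sqrt_le_sqrt hδε
    have h11 : δ ≤ ε / 40000 := by nlinarith
    linarith
  · intro j g k w hj hk hw1 hw2 hkw1 hkw2 hne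
    rw [← hεc] at hkw1 ⊢
    obtain ⟨x, τ, o, e, he, hx, hτ, ho, hkk⟩ := hLCK εc (j * εc) k w hεcp hεc1 (hk.trans (min_le_left _ _)) (hw1.trans hs2) hw2 hkw1 hkw2
    refine ⟨x, τ, o, e, he, hx, hτ, ho.trans ?_, ?_⟩
    · have := hk.trans (min_le_right _ _)
      linarith
    · have h1 : e * (g * nM (j * εc)) * nM x * aM τ * lM o * aM (-n) = g * k * aM (-n) := by
        rw [hkk, hnM, HMG_comm e _ he]
        have h2 : nM (↑j * εc) * e = e * nM (↑j * εc) := (HMG_comm e _ he).symm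
        simp only [mul_assoc]
        rw [← mul_assoc (nM (↑j * εc)) e, h2]
        simp only [mul_assoc]
      rw [h1]
      exact hne
  · intro l g g' J a hl0' hl1 hJ
    refine hLFC l g g' J a hl0' hl1 ?_
    intro j hj
    obtain ⟨h1, u, hu, x, τ, o, e, he, hx, hτ, ho, hne⟩ := hJ j hj
    refine ⟨?_, u, hu, x, τ, o, e, he, hx, hτ, ho, ?_⟩
    · rw [abs_mul, abs_of_pos hεcp]
      have h2 : |(j : ℝ)| ≤ J0 := by exact_mod_cast h1
      exact (mul_le_mul_of_nonneg_right h2 hεcp.le).trans hJd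
    · show Ψ' (e * g * lM (l * u) * nM (j * εc + x) * aM τ * lM o * aM (-n)) ≠ 0
      rw [← hεc] at hne
      have h2 : e * (g * lM (l * u) * nM (j * εc)) * nM x * aM τ * lM o * aM (-n) = e * g * lM (l * u) * nM (j * εc + x) * aM τ * lM o * aM (-n) := by
        rw [hnM]
        simp only [mul_assoc]
      rw [← h2]
      exact hne

end

end Pool.Agent.IR
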