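import Pool.Agent.helper52.IR.SpecC

/-! # Row ir:HLH (MP_07c750_an): boxes, for the same lift -/

open scoped MatrixGroups ContDiff Topology UpperHalfPlane ComplexConjugate ENNReal
open UpperHalfPlane MeasureTheory Filter Set

set_option autoImplicit false

namespace Pool.Agent.IR

open Pool.Agent.RS
open Pool.Agent.MS (bq BB BA SF pf)
open Pool.Agent.HV (FW)
open Pool.Agent.EN (XG MG mkX mkM fl pr)
open Pool.Agent.ER (Low LowJ)

noncomputable section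

theorem HLH_int (J : Finset ℤ) (c : ℤ → ℂ) (B B' : Set ℝ) (h : B ⊆ B') :
    ∫ v in Icc (0 : ℝ) 1 ∩ B, ‖∑ j ∈ J, c j * Complex.exp (((Real.pi * j * v / 2 : ℝ) : ℂ) * Complex.I)‖ ^ 2 ≤
      ∫ v in Icc (0 : ℝ) 1 ∩ B', ‖∑ j ∈ J, c j * Complex.exp (((Real.pi * j * v / 2 : ℝ) : ℂ) * Complex.I)‖ ^ 2 := by
  have hc : Continuous fun v : ℝ => ‖∑ j ∈ J, c j * Complex.exp (((Real.pi * j * v / 2 : ℝ) : ℂ) * Complex.I)‖ ^ 2 := by fun_prop
  have hi : IntegrableOn (fun v : ℝ => ‖∑ j ∈ J, c j * Complex.exp (((Real.pi * j * v / 2 : ℝ) : ℂ) * Complex.I)‖ ^ 2) (Icc 0 1) :=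
    hc.continuousOn.integrableOn_compact isCompact_Icc
  refine setIntegral_mono_set (hi.mono_set inter_subset_left) ?_ ?_
  · exact Eventually.of_forall fun v => sq_nonneg _
  · exact HasSubset.Subset.eventuallyLE (inter_subset_inter_right _ h)

theorem HLH_JC {W W' : Set SL(2, ℝ)} (h : W ⊆ W') {εc l l0 : ℝ} {g : SL(2, ℝ)} {j : ℤ} (hj : JC W εc l l0 g j) : JC W' εc l l0 g j := by
  obtain ⟨h1, u, hu, x, τ, o, e, he, hx, hτ, ho, hw⟩ := hj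
  exact ⟨h1, u, hu, x, τ, o, e, he, hx, hτ, ho, h hw⟩

/-- **HLH** -/
theorem HLH_proof (hBXM : MS.BXM_stmt) (hCT1 : CT1_stmt) : HLH_stmt := by
  intro Γ μ K hΓ hμ hK hGP
  obtain ⟨a1, ha1, ha1', hB⟩ := hBXM Γ hΓ
  obtain ⟨C1, hC1, hCT⟩ := hCT1 Γ hΓ
  refine ⟨min a1 (1 / 1600), lt_min ha1 (by norm_num), ?_⟩
  intro a ha haa m m' hm hm1 hm' hm1' hHC
  obtain ⟨C, hC, hBa⟩ := hB a ha (haa.trans (min_le_left _ _))
  have ha16 : 16 * a ≤ 1 / 100 := by have := haa.trans (min_le_right _ _); linarith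
  obtain ⟨C3, hC3d⟩ : ∃ C3 : ℝ, C3 = max C 1 := ⟨_, rfl⟩
  have hC3 : 1 ≤ C3 := by rw [hC3d]; exact le_max_right _ _
  have hCC3 : C ≤ C3 := by rw [hC3d]; exact le_max_left _ _
  have hK0 : 0 < K := by linarith
  have key : ∀ ε : ℝ, 0 < ε → ε ≤ 1 → m + m' ≤ 1 + 3 * ε := by
    intro ε hε hε1
    obtain ⟨δ, hδd⟩ : ∃ δ : ℝ, δ = (ε / 200) ^ 2 := ⟨_, rfl⟩
    have hδ : 0 < δ := by rw [hδd]; positivity
    have hδ1 : δ ≤ 1 / 40000 := by
      rw [hδd]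
      have : ε / 200 ≤ 1 / 200 := by linarith
      have h2 := pow_le_pow_left₀ (by positivity : 0 ≤ ε / 200) this 2
      refine h2.trans (by norm_num)
    obtain ⟨Λ2, hΛ2⟩ : ∃ Λ2 : ℝ, Λ2 = 4 * K * C3 / δ := ⟨_, rfl⟩
    have hΛ2b : 160000 ≤ Λ2 := by
      rw [hΛ2, le_div_iff₀ hδ]
      nlinarith
    obtain ⟨Λ, hΛ⟩ : ∃ Λ : ℝ, Λ = max (C1 * Λ2) Λ2 := ⟨_, rfl⟩
    have hΛa : C1 * Λ2 ≤ Λ := by rw [hΛ]; exact le_max_left _ _
    have hΛb : Λ2 ≤ Λ := by rw [hΛ]; exact le_max_right _ _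
    have hδ' : 0 < min ε (δ ^ 2 / 128) := lt_min hε (by positivity)
    obtain ⟨n, A, A', hm2, hm2', hLFI⟩ := hHC Λ (min ε (δ ^ 2 / 128)) (by linarith) hδ'
    obtain ⟨Ψ, Ψa, Ψn, Ψl, hSF, hΨ, hΨn, hΨl, hΨbox, hΨsup⟩ := hBa n A (Nat.cast_nonneg n)
    obtain ⟨Ψ', Ψa', Ψn', Ψl', hSF', hΨ', hΨn', hΨl', hΨbox', hΨsup'⟩ := hBa n A' (Nat.cast_nonneg n)
    have hen : 1 ≤ Real.exp n := Real.one_le_exp (Nat.cast_nonneg n)
    obtain ⟨L0, hL0⟩ : ∃ L0 : ℝ, L0 = 2 * K * (C3 * Real.exp n) / δ := ⟨_, rfl⟩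
    have hL0p : 0 < L0 := by rw [hL0]; positivity
    obtain ⟨εc, hεc⟩ : ∃ εc : ℝ, εc = Real.pi / (4 * L0) := ⟨_, rfl⟩
    have hεcp : 0 < εc := by rw [hεc]; positivity
    have hεc2 : εc = Real.pi / (2 * Λ2) * Real.exp (-(n : ℝ)) := by
      rw [hεc, hL0, hΛ2, Real.exp_neg]
      field_simp
    have hpi := Real.pi_pos
    have hpi4 := Real.pi_le_four
    have hexp1 : Real.exp (-(n : ℝ)) ≤ 1 := Real.exp_le_one_iff.2 (by have := Nat.cast_nonneg (α := ℝ) n; linarith)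
    have hεc1 : εc ≤ 1 / 100 := by
      rw [hεc2]
      have h1 : Real.pi / (2 * Λ2) ≤ 1 / 100 := by
        rw [div_le_div_iff₀ (by positivity) (by norm_num)]
        nlinarith
      have h2 := mul_le_mul h1 hexp1 (Real.exp_pos _).le (by norm_num : (0 : ℝ) ≤ 1 / 100)
      linarith
    have hsub : {g : SL(2, ℝ) | Ψ g ≠ 0} ⊆ FW Γ A (16 * a) (Real.exp (-(n : ℝ))) := fun g hg => hΨsup g hg
    have hsub' : {h : SL(2, ℝ) | Ψ' (h * aM (-(n : ℝ))) ≠ 0} ⊆ {h | h * aM (-(n : ℝ)) ∈ FW Γ A' (16 * a) (Real.exp (-(n : ℝ)))} :=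
      fun g hg => hΨsup' _ hg
    have hLFC : LFC Ψ Ψ' n εc (εc / 100) (δ ^ 2 / 128) := by
      intro l g g' J c hl0 hl1 hJ
      have hcard : (J.card : ℝ) ≤ Λ * A'.card := by
        have h1 := hCT (16 * a) Λ2 n εc l (εc / 100) A' g J (by positivity) ha16 (by linarith) (Nat.cast_nonneg n) hεc2 hεc1 hl0 hl1 le_rfl
          (fun j hj => HLH_JC hsub' (hJ j hj))
        exact h1.trans (mul_le_mul_of_nonneg_right hΛa (Nat.cast_nonneg _))
      have hjj : ∀ j ∈ J, |j| ≤ ((⌈Λ * Real.exp n⌉₊ : ℕ) : ℤ) := by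
        intro j hj
        have h1 := (hJ j hj).1
        rw [abs_mul, abs_of_pos hεcp, ← le_div_iff₀ hεcp] at h1
        have h2 : 3 / 10 / εc ≤ Λ * Real.exp n := by
          rw [div_le_iff₀ hεcp]
          have h3 : Λ2 * Real.exp n * εc = Real.pi / 2 := by
            rw [hεc2, Real.exp_neg]
            field_simp
          have h4 : Λ2 * Real.exp n * εc ≤ Λ * Real.exp n * εc :=
            mul_le_mul_of_nonneg_right (mul_le_mul_of_nonneg_right hΛb (Real.exp_pos _).le) hεcp.le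
          have := Real.pi_gt_three
          linarith
        have h5 : |(j : ℝ)| ≤ ((⌈Λ * Real.exp n⌉₊ : ℕ) : ℝ) := h1.trans (h2.trans (Nat.le_ceil _))
        exact_mod_cast h5
      have h6 := hLFI g' J c hcard hjj
      have h7 := HLH_int J c {v | Ψ (g' * lM v) ≠ 0} {v | g' * lM v ∈ FW Γ A (16 * a) (Real.exp (-(n : ℝ)))} (fun v hv => hsub hv)
      refine h7.trans (h6.trans ?_)
      exact mul_le_mul_of_nonneg_right (min_le_right _ _) (Finset.sum_nonneg fun j _ => sq_nonneg _)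
    have hfin := hGP ε C3 δ L0 εc (C3 * Real.exp n) (εc / 100) n Ψ Ψa Ψn Ψl Ψ' Ψa' Ψn' Ψl' hε hε1 hC3 hδ hδd.le hL0 hεc (by positivity)
      hSF hSF' hΨ hΨ' (fun g => (hΨn g).trans hCC3) (fun g => (hΨl g).trans (mul_le_mul_of_nonneg_right hCC3 (Real.exp_pos _).le))
      (fun g => (hΨn' g).trans (by nlinarith)) (fun g => (hΨl' g).trans (mul_le_mul_of_nonneg_right hCC3 (Real.exp_pos _).le)) hLFC
    have hone : ∀ (A0 : Finset SL(2, ℝ)) (Φ : SL(2, ℝ) → ℝ),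
        (∀ g, (∃ y ∈ A0, ∃ γ : Γ, bq a a (a * Real.exp (-(n : ℝ))) (y⁻¹ * (γ : SL(2, ℝ)) * g)) → Φ g = 1) →
        μ.real {x | ∃ y ∈ A0, ∃ h : SL(2, ℝ), bq a a (a * Real.exp (-(n : ℝ))) h ∧ x = mkX Γ (y * h)} ≤ μ.real (one Γ Φ) := by
      intro A0 Φ hΦ
      apply measureReal_mono _ (measure_ne_top _ _)
      rintro x ⟨y, hy, h, hh, rfl⟩
      refine ⟨y * h, rfl, hΦ _ ⟨y, hy, 1, ?_⟩⟩
      have e : y⁻¹ * ((1 : Γ) : SL(2, ℝ)) * (y * h) = h := by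
        rw [Subgroup.coe_one, mul_one, inv_mul_cancel_left]
      rw [e]
      exact hh
    have h1 := hone A Ψ hΨbox
    have h2 := hone A' Ψ' hΨbox'
    have h3 : min ε (δ ^ 2 / 128) ≤ ε := min_le_left _ _
    linarith
  by_contra hcon
  rw [not_le] at hcon
  have h1 := key (min ((m + m' - 1) / 6) 1) (lt_min (by linarith) one_pos) (min_le_right _ _)
  have h2 := min_le_left ((m + m' - 1) / 6) 1
  linarith

end

end Pool.Agent.IR
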